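import Pool.Agent.helper8.GD.Spec

set_option autoImplicit false

namespace GD

open Finset ArithmeticFunction

/-- count of an interval in a residue class -/
theorem SQ_res (q r X : ℕ) :
    ((((Icc 1 X).filter fun n : ℕ => n ≡ r [MOD q]).card : ℕ) : ℝ) ≤ (X : ℝ) / q + 1 := by
  have h1 : ((Icc 1 X).filter fun n : ℕ => n ≡ r [MOD q]).card ≤ X / q + 1 := by
    have hinj : Set.InjOn (fun n : ℕ => n / q)
        ((((Icc 1 X).filter fun n : ℕ => n ≡ r [MOD q]) : Finset ℕ) : Set ℕ) := by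
      intro a ha b hb hab
      simp only [coe_filter, Set.mem_ofPred_eq, mem_Icc] at ha hb
      have h1 := ha.2
      have h2 := hb.2
      have h3 : a % q = b % q := by
        have : a ≡ b [MOD q] := h1.trans h2.symm
        exact this
      have h4 := Nat.div_add_mod a q
      have h5 := Nat.div_add_mod b q
      simp only at hab
      rw [← h4, ← h5, hab, h3]
    have hmap : ∀ n ∈ ((Icc 1 X).filter fun n : ℕ => n ≡ r [MOD q]), n / q ∈ range (X / q + 1) := by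
      intro n hn
      simp only [mem_filter, mem_Icc] at hn
      rw [mem_range]
      have := Nat.div_le_div_right (c := q) hn.1.2
      omega
    have := card_le_card_of_injOn _ hmap hinj
    simpa using this
  have h2 : ((X / q : ℕ) : ℝ) ≤ (X : ℝ) / q := Nat.cast_div_le
  calc ((((Icc 1 X).filter fun n : ℕ => n ≡ r [MOD q]).card : ℕ) : ℝ) ≤ ((X / q + 1 : ℕ) : ℝ) := by
        exact_mod_cast h1
    _ ≤ _ := by push_cast; linarith

theorem SQ_two (l n m : ℕ) (hl : l.Prime) (hn : 1 ≤ n) (hm : 1 ≤ m) (h1 : l ^ 2 ∣ 8 * n ^ 2 - 1)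
    (h2 : l ^ 2 ∣ 8 * m ^ 2 - 1) : n ≡ m [MOD l ^ 2] ∨ n ≡ (l ^ 2 * m - m) [MOD l ^ 2] := by
  have hn2 : 1 ≤ 8 * n ^ 2 := by nlinarith [pow_pos (show 0 < n by omega) 2]
  have hm2 : 1 ≤ 8 * m ^ 2 := by nlinarith [pow_pos (show 0 < m by omega) 2]
  have e1 : ((l : ℤ) ^ 2) ∣ 8 * (n : ℤ) ^ 2 - 1 := by
    have : ((l ^ 2 : ℕ) : ℤ) ∣ ((8 * n ^ 2 - 1 : ℕ) : ℤ) := by exact_mod_cast h1
    rw [Nat.cast_sub hn2] at this
    push_cast at this
    exact this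
  have e2 : ((l : ℤ) ^ 2) ∣ 8 * (m : ℤ) ^ 2 - 1 := by
    have : ((l ^ 2 : ℕ) : ℤ) ∣ ((8 * m ^ 2 - 1 : ℕ) : ℤ) := by exact_mod_cast h2
    rw [Nat.cast_sub hm2] at this
    push_cast at this
    exact this
  have hlp : Prime (l : ℤ) := Nat.prime_iff_prime_int.mp hl
  have hl1 : (l : ℤ) ∣ 8 * (n : ℤ) ^ 2 - 1 := (dvd_pow_self _ two_ne_zero).trans e1
  have hnd8 : ¬ (l : ℤ) ∣ 8 := by
    intro h
    have : (l : ℤ) ∣ 1 := by
      have h3 := Dvd.dvd.mul_right h ((n : ℤ) ^ 2)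
      have := dvd_sub h3 hl1
      simpa using this
    exact hlp.not_isUnit (isUnit_of_dvd_one this)
  have hndn : ¬ (l : ℤ) ∣ n := by
    intro h
    have : (l : ℤ) ∣ 1 := by
      have h3 : (l : ℤ) ∣ 8 * (n : ℤ) ^ 2 := Dvd.dvd.mul_left (dvd_pow h two_ne_zero) 8
      have := dvd_sub h3 hl1
      simpa using this
    exact hlp.not_isUnit (isUnit_of_dvd_one this)
  have hcop8 : IsCoprime ((l : ℤ) ^ 2) 8 := by
    apply IsCoprime.pow_left
    exact (Prime.coprime_iff_not_dvd hlp).mpr hnd8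
  have h3 : ((l : ℤ) ^ 2) ∣ ((n : ℤ) - m) * (n + m) := by
    have : ((l : ℤ) ^ 2) ∣ 8 * (((n : ℤ) - m) * (n + m)) := by
      have := dvd_sub e1 e2
      have h4 : (8 * (n : ℤ) ^ 2 - 1) - (8 * (m : ℤ) ^ 2 - 1) = 8 * (((n : ℤ) - m) * (n + m)) := by ring
      rwa [h4] at this
    exact hcop8.dvd_of_dvd_mul_left this
  by_cases hc : (l : ℤ) ∣ (n : ℤ) - m
  · have hc2 : ¬ (l : ℤ) ∣ (n : ℤ) + m := by
      intro h
      have h5 : (l : ℤ) ∣ 2 * n := by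
        have := dvd_add hc h
        have h6 : ((n : ℤ) - m) + (n + m) = 2 * n := by ring
        rwa [h6] at this
      rcases hlp.dvd_or_dvd h5 with h6 | h6
      · exact hnd8 (h6.trans (by norm_num))
      · exact hndn h6
    have hcop : IsCoprime ((l : ℤ) ^ 2) ((n : ℤ) + m) := by
      apply IsCoprime.pow_left
      exact (Prime.coprime_iff_not_dvd hlp).mpr hc2
    have h6 : ((l : ℤ) ^ 2) ∣ (n : ℤ) - m := hcop.dvd_of_dvd_mul_right h3
    left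
    apply Nat.ModEq.symm
    rw [Nat.modEq_iff_dvd]
    push_cast
    exact h6
  · have hcop : IsCoprime ((l : ℤ) ^ 2) ((n : ℤ) - m) := by
      apply IsCoprime.pow_left
      exact (Prime.coprime_iff_not_dvd hlp).mpr hc
    have h6 : ((l : ℤ) ^ 2) ∣ (n : ℤ) + m := hcop.dvd_of_dvd_mul_left h3
    right
    apply Nat.ModEq.symm
    rw [Nat.modEq_iff_dvd]
    have hle : m ≤ l ^ 2 * m := Nat.le_mul_of_pos_left m (pow_pos hl.pos 2)
    rw [Nat.cast_sub hle]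
    push_cast
    have h7 : (n : ℤ) - ((l : ℤ) ^ 2 * m - m) = (n + m) - (l : ℤ) ^ 2 * m := by ring
    rw [h7]
    exact dvd_sub h6 (dvd_mul_right _ _)

theorem SQ_one_l (l X : ℕ) (hl : l.Prime) :
    ((((Icc 1 X).filter fun n : ℕ => l ^ 2 ∣ 8 * n ^ 2 - 1).card : ℕ) : ℝ) ≤
      2 * ((X : ℝ) / (l : ℝ) ^ 2 + 1) := by
  by_cases he : ((Icc 1 X).filter fun n : ℕ => l ^ 2 ∣ 8 * n ^ 2 - 1) = ∅
  · rw [he]; simp; positivity
  · obtain ⟨m, hm⟩ := Finset.nonempty_iff_ne_empty.mpr he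
    simp only [mem_filter, mem_Icc] at hm
    have hsub : ((Icc 1 X).filter fun n : ℕ => l ^ 2 ∣ 8 * n ^ 2 - 1) ⊆
        ((Icc 1 X).filter fun n : ℕ => n ≡ m [MOD l ^ 2]) ∪
          ((Icc 1 X).filter fun n : ℕ => n ≡ (l ^ 2 * m - m) [MOD l ^ 2]) := by
      intro n hn
      simp only [mem_filter, mem_Icc, mem_union] at hn ⊢
      rcases SQ_two l n m hl hn.1.1 hm.1.1 hn.2 hm.2 with h | h
      · left; exact ⟨hn.1, h⟩
      · right; exact ⟨hn.1, h⟩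
    have h1 := (card_le_card hsub).trans (card_union_le _ _)
    have h2 := SQ_res (l ^ 2) m X
    have h3 := SQ_res (l ^ 2) (l ^ 2 * m - m) X
    have h4 : ((((Icc 1 X).filter fun n : ℕ => l ^ 2 ∣ 8 * n ^ 2 - 1).card : ℕ) : ℝ) ≤
      ((((Icc 1 X).filter fun n : ℕ => n ≡ m [MOD l ^ 2]).card : ℕ) : ℝ) +
      ((((Icc 1 X).filter fun n : ℕ => n ≡ (l ^ 2 * m - m) [MOD l ^ 2]).card : ℕ) : ℝ) := by
      exact_mod_cast h1
    push_cast at h2 h3
    linarith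

theorem SQ_gap (k n₁ l₁ n₂ l₂ : ℕ) (hk : 0 < k) (h1 : 8 * n₁ ^ 2 = k * l₁ ^ 2 + 1)
    (h2 : 8 * n₂ ^ 2 = k * l₂ ^ 2 + 1) (hn : n₁ < n₂) (hn1 : 0 < n₁) : 2 * n₁ ≤ n₂ := by
  zify at *
  have hl : (l₁ : ℤ) < l₂ := by
    by_contra hcon
    push Not at hcon
    have : (l₂ : ℤ) ^ 2 ≤ l₁ ^ 2 := by nlinarith [Int.natCast_nonneg l₂]
    nlinarith
  set u : ℤ := 8 * n₁ * n₂ - k * l₁ * l₂ with hu
  set v : ℤ := n₁ * l₂ - n₂ * l₁ with hv
  have huv : u ^ 2 - 8 * k * v ^ 2 = 1 := by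
    have : u ^ 2 - 8 * k * v ^ 2 = (8 * (n₁ : ℤ) ^ 2 - k * l₁ ^ 2) * (8 * n₂ ^ 2 - k * l₂ ^ 2) := by
      rw [hu, hv]; ring
    rw [this, h1, h2]; ring
  have hl10 : (0 : ℤ) ≤ l₁ := Int.natCast_nonneg l₁
  have hvpos : 0 < v := by
    -- (n₁ l₂)² > (n₂ l₁)²
    by_contra hcon
    push Not at hcon
    have h3 : (n₁ : ℤ) * l₂ ≤ n₂ * l₁ := by linarith
    have h4 : ((n₁ : ℤ) * l₂) ^ 2 ≤ (n₂ * l₁) ^ 2 := by
      apply pow_le_pow_left₀ _ h3
      positivity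
    have h5 : (8 * (n₁ : ℤ) ^ 2) * l₂ ^ 2 ≤ (8 * n₂ ^ 2) * l₁ ^ 2 := by nlinarith
    rw [h1, h2] at h5
    nlinarith
  have hnd : n₂ * (1 : ℤ) = u * n₁ + k * l₁ * v := by
    have : u * n₁ + k * l₁ * v = n₂ * (8 * (n₁ : ℤ) ^ 2 - k * l₁ ^ 2) := by rw [hu, hv]; ring
    rw [this, h1]; ring
  have hu2 : 2 ≤ u := by
    have hu0 : 0 < u := by
      by_contra hcon
      push Not at hcon
      -- u * n₁ ≤ 0, n₂ ≤ k l₁ v ; contradiction via squares: 8 n₁ n₂ ≤ k l₁ l₂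
      have h3 : 8 * (n₁ : ℤ) * n₂ ≤ k * l₁ * l₂ := by linarith
      have h4 : (8 * (n₁ : ℤ) * n₂) ^ 2 ≤ (k * l₁ * l₂) ^ 2 := by
        apply pow_le_pow_left₀ _ h3
        positivity
      have h5 : (8 * (n₁ : ℤ) ^ 2) * (8 * n₂ ^ 2) ≤ (k * l₁ ^ 2) * (k * l₂ ^ 2) := by nlinarith
      rw [h1, h2] at h5
      nlinarith [mul_nonneg (Int.natCast_nonneg k) (sq_nonneg (l₁ : ℤ)),
        mul_nonneg (Int.natCast_nonneg k) (sq_nonneg (l₂ : ℤ))]
    by_contra hcon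
    push Not at hcon
    have hu1 : u = 1 := by linarith
    rw [hu1] at huv
    have : (0 : ℤ) < 8 * k * v ^ 2 := by positivity
    linarith
  have hk0 : (0 : ℤ) ≤ k * l₁ * v := by positivity
  nlinarith

open Classical in
/-- solutions for one `k` -/
theorem SQ_one_k (k X : ℕ) (hk : 0 < k) :
    ((Icc 1 X).filter fun n : ℕ => ∃ l : ℕ, 8 * n ^ 2 = k * l ^ 2 + 1).card ≤ Nat.log 2 X + 1 := by
  have hinj : Set.InjOn (fun n : ℕ => Nat.log 2 n)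
      ((((Icc 1 X).filter fun n : ℕ => ∃ l : ℕ, 8 * n ^ 2 = k * l ^ 2 + 1) : Finset ℕ) : Set ℕ) := by
    have key : ∀ a b : ℕ, 1 ≤ a → a < b → (∃ l : ℕ, 8 * a ^ 2 = k * l ^ 2 + 1) →
        (∃ l : ℕ, 8 * b ^ 2 = k * l ^ 2 + 1) → Nat.log 2 a < Nat.log 2 b := by
      intro a b ha hab ⟨l₁, h1⟩ ⟨l₂, h2⟩
      have h3 := SQ_gap k a l₁ b l₂ hk h1 h2 hab ha
      have h4 : Nat.log 2 (2 * a) = Nat.log 2 a + 1 := by
        rw [mul_comm]; exact Nat.log_mul_base (by norm_num) (by omega)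
      have h5 : Nat.log 2 (2 * a) ≤ Nat.log 2 b := Nat.log_mono_right h3
      omega
    intro a ha b hb hab
    simp only [coe_filter, Set.mem_ofPred_eq, mem_Icc] at ha hb hab
    rcases lt_trichotomy a b with h | h | h
    · have := key a b ha.1.1 h ha.2 hb.2; omega
    · exact h
    · have := key b a hb.1.1 h hb.2 ha.2; omega
  have hmap : ∀ n ∈ ((Icc 1 X).filter fun n : ℕ => ∃ l : ℕ, 8 * n ^ 2 = k * l ^ 2 + 1),
      Nat.log 2 n ∈ range (Nat.log 2 X + 1) := by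
    intro n hn
    simp only [mem_filter, mem_Icc] at hn
    rw [mem_range]
    have := Nat.log_mono_right (b := 2) hn.1.2
    omega
  have := card_le_card_of_injOn _ hmap hinj
  simpa using this

open Classical in
/-- combinatorial bound with integer parameters -/
theorem SQ_comb (X Y Z K : ℕ) (hY : 0 < Y) (hZ : Z ≤ X) (hK : 8 * X ^ 2 ≤ K * (Z + 1) ^ 2) :
    ((((Icc 1 X).filter fun n : ℕ => ∃ l : ℕ, l.Prime ∧ Y < l ∧ l ^ 2 ∣ 8 * n ^ 2 - 1).card : ℕ) : ℝ) ≤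
      2 * (X : ℝ) / Y + 2 * Z + K * (Nat.log 2 X + 1) := by
  classical
  have hsub : ((Icc 1 X).filter fun n : ℕ => ∃ l : ℕ, l.Prime ∧ Y < l ∧ l ^ 2 ∣ 8 * n ^ 2 - 1) ⊆
      (((Ioc Y Z).filter Nat.Prime).biUnion fun l =>
        (Icc 1 X).filter fun n : ℕ => l ^ 2 ∣ 8 * n ^ 2 - 1) ∪
      ((Icc 1 K).biUnion fun k => (Icc 1 X).filter fun n : ℕ => ∃ l : ℕ, 8 * n ^ 2 = k * l ^ 2 + 1) := by
    intro n hn
    simp only [mem_filter, mem_Icc] at hn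
    obtain ⟨⟨hn1, hnX⟩, l, hl, hYl, hdvd⟩ := hn
    rw [mem_union]
    by_cases hlZ : l ≤ Z
    · left
      rw [mem_biUnion]
      exact ⟨l, by simp [hl, hYl, hlZ], by simp [hn1, hnX, hdvd]⟩
    · right
      push Not at hlZ
      obtain ⟨k, hk⟩ := hdvd
      have hn2 : 1 ≤ 8 * n ^ 2 := by nlinarith [pow_pos (show 0 < n by omega) 2]
      have hk1 : 8 * n ^ 2 = k * l ^ 2 + 1 := by
        have : 8 * n ^ 2 = l ^ 2 * k + 1 := by omega
        rw [this, mul_comm]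
      have hkpos : 1 ≤ k := by
        rcases Nat.eq_zero_or_pos k with h | h
        · subst h
          omega
        · exact h
      have hkK : k ≤ K := by
        by_contra hcon
        push Not at hcon
        have h1 : (Z + 1) ^ 2 ≤ l ^ 2 := Nat.pow_le_pow_left (by omega) 2
        have h2 : n ^ 2 ≤ X ^ 2 := Nat.pow_le_pow_left hnX 2
        have h3 : K * (Z + 1) ^ 2 ≤ k * l ^ 2 := Nat.mul_le_mul (by omega) h1
        omega
      rw [mem_biUnion]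
      refine ⟨k, by simp [hkpos, hkK], ?_⟩
      simp only [mem_filter, mem_Icc]
      exact ⟨⟨hn1, hnX⟩, l, hk1⟩
  have h1 : ((((Icc 1 X).filter fun n : ℕ => ∃ l : ℕ, l.Prime ∧ Y < l ∧ l ^ 2 ∣ 8 * n ^ 2 - 1).card : ℕ) : ℝ) ≤
      ∑ l ∈ (Ioc Y Z).filter Nat.Prime,
        ((((Icc 1 X).filter fun n : ℕ => l ^ 2 ∣ 8 * n ^ 2 - 1).card : ℕ) : ℝ) +
      ∑ k ∈ Icc 1 K, ((((Icc 1 X).filter fun n : ℕ => ∃ l : ℕ, 8 * n ^ 2 = k * l ^ 2 + 1).card : ℕ) : ℝ) := by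
    have := (card_le_card hsub).trans ((card_union_le _ _).trans
      (add_le_add card_biUnion_le card_biUnion_le))
    exact_mod_cast this
  refine h1.trans ?_
  have h2 : ∑ l ∈ (Ioc Y Z).filter Nat.Prime,
        ((((Icc 1 X).filter fun n : ℕ => l ^ 2 ∣ 8 * n ^ 2 - 1).card : ℕ) : ℝ) ≤
      2 * (X : ℝ) / Y + 2 * Z := by
    calc ∑ l ∈ (Ioc Y Z).filter Nat.Prime,
        ((((Icc 1 X).filter fun n : ℕ => l ^ 2 ∣ 8 * n ^ 2 - 1).card : ℕ) : ℝ)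
        ≤ ∑ l ∈ (Ioc Y Z).filter Nat.Prime, 2 * ((X : ℝ) / (l : ℝ) ^ 2 + 1) := by
          apply sum_le_sum
          intro l hl
          exact SQ_one_l l X (mem_filter.mp hl).2
      _ ≤ ∑ l ∈ Ioc Y Z, 2 * ((X : ℝ) / (l : ℝ) ^ 2 + 1) := by
          apply sum_le_sum_of_subset_of_nonneg (filter_subset _ _)
          intro i _ _; positivity
      _ = 2 * X * ∑ l ∈ Ioc Y Z, ((l : ℝ) ^ 2)⁻¹ + 2 * ((Ioc Y Z).card : ℝ) := by
          rw [mul_sum, card_eq_sum_ones]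
          push_cast
          rw [mul_sum, ← sum_add_distrib]
          apply sum_congr rfl
          intro l _
          ring
      _ ≤ 2 * X * (1 / Y) + 2 * Z := by
          have h3 : ∑ l ∈ Ioc Y Z, ((l : ℝ) ^ 2)⁻¹ ≤ 1 / Y := by
            by_cases hYZ : Y ≤ Z
            · have := sum_Ioc_inv_sq_le_sub (α := ℝ) hY.ne' hYZ
              refine this.trans ?_
              rw [one_div]
              have : (0 : ℝ) ≤ (Z : ℝ)⁻¹ := by positivity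
              linarith
            · rw [Ioc_eq_empty (by omega)]
              simp
          have h4 : (((Ioc Y Z).card : ℕ) : ℝ) ≤ Z := by
            rw [Nat.card_Ioc]
            exact_mod_cast Nat.sub_le Z Y
          have h5 : (0 : ℝ) ≤ 2 * X := by positivity
          have := mul_le_mul_of_nonneg_left h3 h5
          linarith
      _ = _ := by ring
  have h3 : ∑ k ∈ Icc 1 K, ((((Icc 1 X).filter fun n : ℕ => ∃ l : ℕ, 8 * n ^ 2 = k * l ^ 2 + 1).card : ℕ) : ℝ)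
      ≤ K * (Nat.log 2 X + 1) := by
    calc ∑ k ∈ Icc 1 K, ((((Icc 1 X).filter fun n : ℕ => ∃ l : ℕ, 8 * n ^ 2 = k * l ^ 2 + 1).card : ℕ) : ℝ)
        ≤ ∑ k ∈ Icc 1 K, ((Nat.log 2 X : ℝ) + 1) := by
          apply sum_le_sum
          intro k hk
          have := SQ_one_k k X (mem_Icc.mp hk).1
          exact_mod_cast this
      _ = _ := by rw [sum_const, Nat.card_Icc]; simp; ring
  linarith

theorem SQ_rpow {a b : ℝ} (h : a < b) :
    (fun x : ℝ => x ^ a) =o[Filter.atTop] (fun x : ℝ => x ^ b) := by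
  rw [Asymptotics.isLittleO_iff_tendsto']
  · have h1 := tendsto_rpow_neg_atTop (show 0 < b - a by linarith)
    apply h1.congr'
    filter_upwards [Filter.eventually_gt_atTop 0] with x hx
    rw [← Real.rpow_sub hx]
    congr 1; ring
  · filter_upwards [Filter.eventually_gt_atTop 0] with x hx h0
    exact absurd h0 (Real.rpow_pos_of_pos hx _).ne'

/-- **SQ** -/
theorem SQ : SQ_stmt := by
  classical
  intro δ hδ
  set d : ℝ := min δ (1 / 4) with hd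
  have hd0 : 0 < d := lt_min hδ (by norm_num)
  have hd4 : d ≤ 1 / 4 := min_le_right _ _
  have hdδ : d ≤ δ := min_le_left _ _
  refine ⟨d / 2, by positivity, ?_⟩
  -- eventually 4 X^(1-d) + 2 X^(3/4) + 64 X^(1/2) (log X / log 2 + 1) ≤ X^(1-d/2)
  have hlim : ∀ᶠ x : ℝ in Filter.atTop,
      4 * x ^ (1 - d) + 2 * x ^ (3 / 4 : ℝ) + (32 * x ^ (1 / 2 : ℝ)) * (2 * Real.log x + 1) ≤
        x ^ (1 - d / 2) := by
    have h1 : (fun x : ℝ => x ^ (1 - d)) =o[Filter.atTop] (fun x : ℝ => x ^ (1 - d / 2)) :=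
      SQ_rpow (by linarith)
    have h2 : (fun x : ℝ => x ^ (3 / 4 : ℝ)) =o[Filter.atTop] (fun x : ℝ => x ^ (1 - d / 2)) :=
      SQ_rpow (by linarith)
    have h3 : (fun x : ℝ => Real.log x) =o[Filter.atTop] (fun x : ℝ => x ^ (1 / 4 : ℝ)) :=
      isLittleO_log_rpow_atTop (by norm_num)
    have h4 : (fun x : ℝ => (1 : ℝ)) =o[Filter.atTop] (fun x : ℝ => x ^ (1 / 4 : ℝ)) := by
      have := SQ_rpow (show (0 : ℝ) < 1 / 4 by norm_num)
      simpa using this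
    have h5 : (fun x : ℝ => (2 * Real.log x + 1)) =o[Filter.atTop] (fun x : ℝ => x ^ (1 / 4 : ℝ)) :=
      (h3.const_mul_left 2).add h4
    have h6 : (fun x : ℝ => (32 * x ^ (1 / 2 : ℝ)) * (2 * Real.log x + 1)) =o[Filter.atTop]
        (fun x : ℝ => (x ^ (1 / 2 : ℝ)) * x ^ (1 / 4 : ℝ)) := by
      apply Asymptotics.IsBigO.mul_isLittleO _ h5
      exact (Asymptotics.isBigO_refl _ _).const_mul_left 32
    have h7 : (fun x : ℝ => (x ^ (1 / 2 : ℝ)) * x ^ (1 / 4 : ℝ)) =ᶠ[Filter.atTop]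
        (fun x : ℝ => x ^ (3 / 4 : ℝ)) := by
      filter_upwards [Filter.eventually_gt_atTop 0] with x hx
      rw [← Real.rpow_add hx]; norm_num
    have h8 : (fun x : ℝ => (32 * x ^ (1 / 2 : ℝ)) * (2 * Real.log x + 1)) =o[Filter.atTop]
        (fun x : ℝ => x ^ (1 - d / 2)) := (h6.trans_eventuallyEq h7).trans h2
    have h9 := ((h1.const_mul_left 4).add (h2.const_mul_left 2)).add h8
    have h10 := h9.bound (show (0 : ℝ) < 1 by norm_num)
    filter_upwards [h10, Filter.eventually_ge_atTop 1] with x hx hx1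
    have hx0 : (0 : ℝ) < x := by linarith
    rw [Real.norm_of_nonneg (by positivity : (0 : ℝ) ≤ x ^ (1 - d / 2)), one_mul] at hx
    exact (le_abs_self _).trans hx
  obtain ⟨x₀, hx₀⟩ := Filter.eventually_atTop.mp hlim
  refine ⟨⌈x₀⌉₊ + 2, ?_⟩
  intro X hX
  have hX1 : (1 : ℝ) ≤ X := by exact_mod_cast (by omega : 1 ≤ X)
  have hX0 : (0 : ℝ) < X := by linarith
  have hXx : x₀ ≤ X := (Nat.le_ceil x₀).trans (by exact_mod_cast (by omega : ⌈x₀⌉₊ ≤ X))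
  have hfin := hx₀ X hXx
  -- integer parameters
  have hXd1 : (1 : ℝ) ≤ (X : ℝ) ^ d := Real.one_le_rpow hX1 hd0.le
  set Y : ℕ := ⌊(X : ℝ) ^ d⌋₊ with hYdef
  set Z : ℕ := ⌊(X : ℝ) ^ (3 / 4 : ℝ)⌋₊ with hZdef
  set K : ℕ := ⌊8 * (X : ℝ) ^ (1 / 2 : ℝ)⌋₊ + 1 with hKdef
  have hY1 : 1 ≤ Y := Nat.one_le_floor_iff _ |>.mpr hXd1
  have hYlow : (X : ℝ) ^ d / 2 ≤ Y := by
    have h1 := Nat.lt_floor_add_one ((X : ℝ) ^ d)
    have h2 : (1 : ℝ) ≤ Y := by exact_mod_cast hY1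
    rw [← hYdef] at h1
    linarith
  have hZup : (Z : ℝ) ≤ (X : ℝ) ^ (3 / 4 : ℝ) := Nat.floor_le (by positivity)
  have hZX : Z ≤ X := by
    have : (Z : ℝ) ≤ X := by
      refine hZup.trans ?_
      have := Real.rpow_le_rpow_of_exponent_le hX1 (show (3 / 4 : ℝ) ≤ 1 by norm_num)
      simpa using this
    exact_mod_cast this
  have hZ1 : (X : ℝ) ^ (3 / 4 : ℝ) ≤ Z + 1 := (Nat.lt_floor_add_one _).le
  have hKlow : 8 * (X : ℝ) ^ (1 / 2 : ℝ) ≤ K := by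
    have := (Nat.lt_floor_add_one (8 * (X : ℝ) ^ (1 / 2 : ℝ))).le
    rw [hKdef]; push_cast; exact this
  have hKup : (K : ℝ) ≤ 9 * (X : ℝ) ^ (1 / 2 : ℝ) := by
    have h1 : (⌊8 * (X : ℝ) ^ (1 / 2 : ℝ)⌋₊ : ℝ) ≤ 8 * (X : ℝ) ^ (1 / 2 : ℝ) :=
      Nat.floor_le (by positivity)
    have h2 : (1 : ℝ) ≤ (X : ℝ) ^ (1 / 2 : ℝ) := Real.one_le_rpow hX1 (by norm_num)
    rw [hKdef]; push_cast; linarith
  have hK : 8 * X ^ 2 ≤ K * (Z + 1) ^ 2 := by
    have h1 : (8 : ℝ) * X ^ 2 = (8 * (X : ℝ) ^ (1 / 2 : ℝ)) * ((X : ℝ) ^ (3 / 4 : ℝ)) ^ 2 := by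
      rw [← Real.rpow_natCast ((X : ℝ) ^ (3 / 4 : ℝ)) 2, ← Real.rpow_mul hX0.le, mul_assoc,
        ← Real.rpow_add hX0, ← Real.rpow_natCast (X : ℝ) 2]
      norm_num
    have h2 : (8 : ℝ) * X ^ 2 ≤ K * ((Z : ℝ) + 1) ^ 2 := by
      rw [h1]
      apply mul_le_mul hKlow _ (by positivity) (by positivity)
      exact pow_le_pow_left₀ (by positivity) hZ1 2
    exact_mod_cast h2
  have hcomb := SQ_comb X Y Z K (by omega) hZX hK
  have hsub : (NSq X δ).card ≤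
      ((Icc 1 X).filter fun n : ℕ => ∃ l : ℕ, l.Prime ∧ Y < l ∧ l ^ 2 ∣ 8 * n ^ 2 - 1).card := by
    apply card_le_card
    intro n hn
    simp only [NSq, mem_filter, mem_Icc] at hn ⊢
    obtain ⟨h1, l, hl, hl2, hl3⟩ := hn
    refine ⟨h1, l, hl, ?_, hl3⟩
    have h4 : (X : ℝ) ^ d ≤ (X : ℝ) ^ δ := Real.rpow_le_rpow_of_exponent_le hX1 hdδ
    have h5 : (Y : ℝ) < l := (Nat.floor_le (by positivity)).trans_lt (h4.trans_lt hl2)
    exact_mod_cast h5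
  have hsub' : ((NSq X δ).card : ℝ) ≤ 2 * (X : ℝ) / Y + 2 * Z + K * (Nat.log 2 X + 1) :=
    le_trans (by exact_mod_cast hsub) hcomb
  have hlog : ((Nat.log 2 X : ℕ) : ℝ) ≤ 2 * Real.log X := by
    have h1 : ((Nat.log 2 X : ℕ) : ℝ) ≤ Real.logb 2 X := by
      have := Real.natLog_le_logb X 2
      exact_mod_cast this
    refine h1.trans ?_
    rw [Real.logb, div_le_iff₀ (Real.log_pos (by norm_num))]
    have h2 : (1 / 2 : ℝ) ≤ Real.log 2 := by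
      have := Real.log_two_gt_d9; linarith
    have h3 : 0 ≤ Real.log X := Real.log_nonneg hX1
    nlinarith
  have hXd : 2 * (X : ℝ) / Y ≤ 4 * (X : ℝ) ^ (1 - d) := by
    rw [div_le_iff₀ (by exact_mod_cast (by omega : 0 < Y))]
    have h1 : (X : ℝ) = (X : ℝ) ^ (1 - d) * (X : ℝ) ^ d := by
      rw [← Real.rpow_add hX0]; simp
    have h2 : 4 * (X : ℝ) ^ (1 - d) * ((X : ℝ) ^ d / 2) ≤ 4 * (X : ℝ) ^ (1 - d) * Y :=
      mul_le_mul_of_nonneg_left hYlow (by positivity)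
    calc 2 * (X : ℝ) = 4 * (X : ℝ) ^ (1 - d) * ((X : ℝ) ^ d / 2) := by
          nth_rewrite 1 [h1]; ring
      _ ≤ _ := h2
  have hlogn : 0 ≤ Real.log X := Real.log_nonneg hX1
  have hK2 : (K : ℝ) * (Nat.log 2 X + 1) ≤ (32 * (X : ℝ) ^ (1 / 2 : ℝ)) * (2 * Real.log X + 1) := by
    apply mul_le_mul _ _ (by positivity) (by positivity)
    · have : (0 : ℝ) ≤ (X : ℝ) ^ (1 / 2 : ℝ) := by positivity
      linarith
    · linarith
  have h23 : 2 * (Z : ℝ) ≤ 2 * (X : ℝ) ^ (3 / 4 : ℝ) := by linarith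
  linarith

end GD
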